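import Mathlib

set_option autoImplicit false

/-!
# Level sets of almost invariant functions on a group (Namioka)
-/

namespace Pool.Agent.Helper35.KS

open MeasureTheory Set
open scoped symmDiff Pointwise

lemma vol_level {a : ℝ} : volume.restrict (Ioi (0 : ℝ)) (Iio a) = ENNReal.ofReal a := by
  rw [Measure.restrict_apply measurableSet_Iio, Iio_inter_Ioi, Real.volume_Ioo, sub_zero]

lemma vol_diff {a b : ℝ} :
    volume.restrict (Ioi (0 : ℝ)) (Ico (min a b) (max a b)) ≤ ENNReal.ofReal |a - b| := by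
  rw [Measure.restrict_apply measurableSet_Ico]
  refine (measure_mono inter_subset_left).trans ?_
  rw [Real.volume_Ico, max_sub_min_eq_abs, abs_sub_comm]

/-- Level sets. -/
theorem level {Q : Type} [Group Q] [DecidableEq Q] (S : Finset Q) (ε : ℝ) (hε : 0 < ε) (f : Q → ℝ)
    (E T : Finset Q) (hf0 : ∀ h, 0 ≤ f h) (hfE : ∀ h ∉ E, f h = 0) (hET : E ⊆ T)
    (hT : ∀ s ∈ S, ∀ h ∈ E, s * h ∈ T)
    (hlt : ∑ s ∈ S, ∑ h ∈ T, |f (s⁻¹ * h) - f h| < ε * ∑ h ∈ E, f h) :
    ∃ F : Finset Q, F.Nonempty ∧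
      ∀ s ∈ S, (((s • (F : Set Q)) ∆ (F : Set Q)).ncard : ℝ) ≤ ε * F.card := by
  by_contra hcon
  push Not at hcon
  set N : ℝ → ENNReal := fun t => ∑ h ∈ E, (Iio (f h)).indicator 1 t with hN
  set D : ℝ → ENNReal := fun t => ∑ s ∈ S, ∑ h ∈ T,
    (Ico (min (f (s⁻¹ * h)) (f h)) (max (f (s⁻¹ * h)) (f h))).indicator 1 t with hD
  have key : ∀ t ∈ Ioi (0 : ℝ), ENNReal.ofReal ε * N t ≤ D t := by
    intro t ht
    rw [mem_Ioi] at ht
    set F : Finset Q := E.filter (fun h => t < f h) with hF
    have hmemF : ∀ h, h ∈ F ↔ t < f h := by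
      intro h
      rw [hF, Finset.mem_filter]
      refine ⟨fun h => h.2, fun h1 => ⟨?_, h1⟩⟩
      by_contra h2
      rw [hfE h h2] at h1
      exact lt_irrefl _ (h1.trans ht)
    have hNF : N t = (F.card : ENNReal) := by
      rw [hN, hF, Finset.card_filter]
      push_cast
      refine Finset.sum_congr rfl fun h _ => ?_
      by_cases h1 : t < f h
      · rw [indicator_of_mem (show t ∈ Iio (f h) from h1), if_pos h1]; rfl
      · rw [indicator_of_notMem (show t ∉ Iio (f h) from h1), if_neg h1]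
    rcases F.eq_empty_or_nonempty with h0 | h0
    · rw [hNF, h0, Finset.card_empty, Nat.cast_zero, mul_zero]
      exact zero_le
    · obtain ⟨s, hs, hs2⟩ := hcon F h0
      have hset : ((s • (F : Set Q)) ∆ (F : Set Q)) ⊆
          ((T.filter fun h => t ∈ Ico (min (f (s⁻¹ * h)) (f h)) (max (f (s⁻¹ * h)) (f h)) :
            Finset Q) : Set Q) := by
        intro h hh
        have hm : h ∈ s • (F : Set Q) ↔ t < f (s⁻¹ * h) := by
          rw [mem_smul_set_iff_inv_smul_mem, smul_eq_mul, Finset.mem_coe, hmemF]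
        have hm2 : h ∈ (F : Set Q) ↔ t < f h := by rw [Finset.mem_coe, hmemF]
        rw [mem_symmDiff, hm, hm2, not_lt, not_lt] at hh
        rw [Finset.mem_coe, Finset.mem_filter, mem_Ico]
        rcases hh with ⟨h1, h2⟩ | ⟨h1, h2⟩
        · refine ⟨?_, (min_le_right _ _).trans h2, h1.trans_le (le_max_left _ _)⟩
          have h3 : s⁻¹ * h ∈ E := by
            by_contra h4
            rw [hfE _ h4] at h1
            exact lt_irrefl _ (h1.trans ht)
          have := hT s hs _ h3
          rwa [mul_inv_cancel_left] at this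
        · refine ⟨?_, (min_le_left _ _).trans h2, h1.trans_le (le_max_right _ _)⟩
          apply hET
          by_contra h4
          rw [hfE _ h4] at h1
          exact lt_irrefl _ (h1.trans ht)
      have hcard := ncard_le_ncard hset (Finset.finite_toSet _)
      rw [ncard_coe_finset] at hcard
      have h3 : ENNReal.ofReal ε * N t ≤ (((T.filter fun h => t ∈ Ico (min (f (s⁻¹ * h)) (f h))
          (max (f (s⁻¹ * h)) (f h))).card : ℕ) : ENNReal) := by
        rw [hNF, ← ENNReal.ofReal_natCast, ← ENNReal.ofReal_natCast, ← ENNReal.ofReal_mul hε.le]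
        apply ENNReal.ofReal_le_ofReal
        have : ((((s • (F : Set Q)) ∆ (F : Set Q)).ncard : ℕ) : ℝ) ≤ ((T.filter fun h =>
            t ∈ Ico (min (f (s⁻¹ * h)) (f h)) (max (f (s⁻¹ * h)) (f h))).card : ℕ) := by
          exact_mod_cast hcard
        linarith
      refine h3.trans ?_
      rw [Finset.card_filter]
      push_cast
      have h4 : (∑ h ∈ T, (if t ∈ Ico (min (f (s⁻¹ * h)) (f h)) (max (f (s⁻¹ * h)) (f h))
          then (1 : ENNReal) else 0)) = ∑ h ∈ T,
          (Ico (min (f (s⁻¹ * h)) (f h)) (max (f (s⁻¹ * h)) (f h))).indicator 1 t := by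
        refine Finset.sum_congr rfl fun h _ => ?_
        rw [indicator_apply]
        rfl
      rw [h4]
      exact Finset.single_le_sum (f := fun s => ∑ h ∈ T,
        (Ico (min (f (s⁻¹ * h)) (f h)) (max (f (s⁻¹ * h)) (f h))).indicator 1 t)
        (fun _ _ => zero_le) hs
  have hNm : Measurable N := by
    refine Finset.measurable_sum _ fun h _ => ?_
    exact measurable_one.indicator measurableSet_Iio
  have h1 : ∫⁻ t in Ioi (0 : ℝ), ENNReal.ofReal ε * N t ≤ ∫⁻ t in Ioi (0 : ℝ), D t :=
    setLIntegral_mono' measurableSet_Ioi key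
  have h2 : ∫⁻ t in Ioi (0 : ℝ), ENNReal.ofReal ε * N t =
      ENNReal.ofReal (ε * ∑ h ∈ E, f h) := by
    rw [lintegral_const_mul _ hNm, hN, lintegral_finsetSum _
      (fun h _ => measurable_one.indicator measurableSet_Iio), ENNReal.ofReal_mul hε.le,
      ENNReal.ofReal_sum_of_nonneg (fun h _ => hf0 h)]
    congr 1
    refine Finset.sum_congr rfl fun h _ => ?_
    rw [lintegral_indicator_one measurableSet_Iio, vol_level]
  have h3 : ∫⁻ t in Ioi (0 : ℝ), D t ≤
      ENNReal.ofReal (∑ s ∈ S, ∑ h ∈ T, |f (s⁻¹ * h) - f h|) := by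
    rw [hD, lintegral_finsetSum _ (fun s _ => Finset.measurable_sum _
      (fun h _ => measurable_one.indicator measurableSet_Ico)),
      ENNReal.ofReal_sum_of_nonneg (fun s _ => Finset.sum_nonneg fun h _ => abs_nonneg _)]
    refine Finset.sum_le_sum fun s _ => ?_
    rw [lintegral_finsetSum _ (fun h _ => measurable_one.indicator measurableSet_Ico),
      ENNReal.ofReal_sum_of_nonneg (fun h _ => abs_nonneg _)]
    refine Finset.sum_le_sum fun h _ => ?_
    rw [lintegral_indicator_one measurableSet_Ico]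
    exact vol_diff
  rw [h2] at h1
  have h4 := h1.trans h3
  have h5 : 0 ≤ ∑ s ∈ S, ∑ h ∈ T, |f (s⁻¹ * h) - f h| :=
    Finset.sum_nonneg fun s _ => Finset.sum_nonneg fun h _ => abs_nonneg _
  rw [ENNReal.ofReal_le_ofReal_iff h5] at h4
  exact absurd hlt (not_lt.mpr h4)

end Pool.Agent.Helper35.KS
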