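import Pool.Agent.Helper6K1.ZP.Stm
import Pool.Agent.Helper35.KS.Level

set_option autoImplicit false

/-!
# Kesten's theorem in algebraic form
-/

namespace Pool.Agent.Helper35.KS

open Pool.Agent.H496R3.ZS (Ell dl dl_apply permIso orthonormal_dl IsAmenable)
open Pool.Agent.H919R4.ZS
open Pool.Agent.TH38.ZT
open Pool.Agent.Helper6K1.ZM Pool.Agent.Helper6K1.ZP
open MonoidAlgebra (single)
open scoped symmDiff Pointwise

lemma sum_sq_le {Q : Type} (v : L2 Q) (T : Finset Q) : ∑ h ∈ T, ‖v h‖ ^ 2 ≤ ‖v‖ ^ 2 := by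
  have h := lp.sum_rpow_le_norm_rpow (p := 2) (by norm_num) v T
  simpa using h

lemma norm_sq_eq {Q : Type} (v : L2 Q) (E : Finset Q) (hE : ∀ h ∉ E, v h = 0) :
    ‖v‖ ^ 2 = ∑ h ∈ E, ‖v h‖ ^ 2 := by
  have h := lp.norm_rpow_eq_tsum (p := 2) (by norm_num) v
  rw [tsum_eq_sum (s := E) (fun h hh => by rw [hE h hh]; simp)] at h
  simpa using h

/-- truncation -/
lemma exists_trunc {Q : Type} [DecidableEq Q] (ξ : L2 Q) (η : ℝ) (hη : 0 < η) :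
    ∃ (E : Finset Q) (a : L2 Q), (∀ h ∉ E, a h = 0) ∧ ‖ξ - a‖ ≤ η := by
  have h1 := lp.hasSum_single (p := 2) (by norm_num) ξ
  have h2 := (Metric.tendsto_nhds.1 h1 η hη).exists
  obtain ⟨E, hE⟩ := h2
  refine ⟨E, ∑ i ∈ E, lp.single 2 i (ξ i), fun h hh => ?_, ?_⟩
  · rw [lp.coeFn_sum, Finset.sum_apply]
    refine Finset.sum_eq_zero fun i hi => ?_
    refine lp.single_apply_ne _ _ _ ?_
    rintro rfl
    exact hh hi
  · rw [dist_eq_norm, norm_sub_rev] at hE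
    exact hE.le

variable {Q : Type} [Group Q]

lemma LC_one_sub (s : Q) (ξ : L2 Q) :
    LC ((1 : MonoidAlgebra ℂ Q) - single s 1) ξ = ξ - lregL s ξ := by
  rw [map_sub, map_one, LC_single, one_smul]
  rfl

lemma diff_sum (a : L2 Q) (s : Q) (T : Finset Q) (δ : ℝ) (hδ : 0 ≤ δ)
    (h1 : ‖a - lregL s a‖ ≤ 3 * δ) (h2 : ‖a‖ ≤ 2) :
    ∑ h ∈ T, |‖a (s⁻¹ * h)‖ ^ 2 - ‖a h‖ ^ 2| ≤ 12 * δ := by
  have e1 : ∑ h ∈ T, ‖a h - a (s⁻¹ * h)‖ ^ 2 ≤ (3 * δ) ^ 2 := by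
    refine (sum_sq_le (a - lregL s a) T).trans ?_
    gcongr
  have e2 : ∑ h ∈ T, ‖a h‖ ^ 2 ≤ 4 := by
    refine (sum_sq_le a T).trans ?_
    nlinarith [norm_nonneg a]
  have e3 : ∑ h ∈ T, ‖a (s⁻¹ * h)‖ ^ 2 ≤ 4 := by
    refine (sum_sq_le (lregL s a) T).trans ?_
    rw [norm_lregL]
    nlinarith [norm_nonneg a]
  have e4 : ∑ h ∈ T, (‖a h‖ + ‖a (s⁻¹ * h)‖) ^ 2 ≤ 16 := by
    calc ∑ h ∈ T, (‖a h‖ + ‖a (s⁻¹ * h)‖) ^ 2
        ≤ ∑ h ∈ T, (2 * ‖a h‖ ^ 2 + 2 * ‖a (s⁻¹ * h)‖ ^ 2) := by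
          refine Finset.sum_le_sum fun h _ => ?_
          nlinarith [sq_nonneg (‖a h‖ - ‖a (s⁻¹ * h)‖)]
      _ = 2 * ∑ h ∈ T, ‖a h‖ ^ 2 + 2 * ∑ h ∈ T, ‖a (s⁻¹ * h)‖ ^ 2 := by
          rw [Finset.sum_add_distrib, ← Finset.mul_sum, ← Finset.mul_sum]
      _ ≤ 16 := by linarith
  have e5 : ∑ h ∈ T, |‖a (s⁻¹ * h)‖ ^ 2 - ‖a h‖ ^ 2| ≤
      ∑ h ∈ T, ‖a h - a (s⁻¹ * h)‖ * (‖a h‖ + ‖a (s⁻¹ * h)‖) := by
    refine Finset.sum_le_sum fun h _ => ?_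
    have h3 : ‖a (s⁻¹ * h)‖ ^ 2 - ‖a h‖ ^ 2 =
        (‖a (s⁻¹ * h)‖ - ‖a h‖) * (‖a h‖ + ‖a (s⁻¹ * h)‖) := by ring
    rw [h3, abs_mul, abs_of_nonneg (by positivity : 0 ≤ ‖a h‖ + ‖a (s⁻¹ * h)‖)]
    refine mul_le_mul_of_nonneg_right ?_ (by positivity)
    rw [norm_sub_rev]
    exact abs_norm_sub_norm_le _ _
  have e6 := Finset.sum_mul_sq_le_sq_mul_sq T (fun h => ‖a h - a (s⁻¹ * h)‖)
    (fun h => ‖a h‖ + ‖a (s⁻¹ * h)‖)
  have e7 : 0 ≤ ∑ h ∈ T, ‖a h - a (s⁻¹ * h)‖ * (‖a h‖ + ‖a (s⁻¹ * h)‖) :=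
    Finset.sum_nonneg fun h _ => by positivity
  have e8 : 0 ≤ ∑ h ∈ T, ‖a h - a (s⁻¹ * h)‖ ^ 2 := Finset.sum_nonneg fun h _ => by positivity
  have e9 : (∑ h ∈ T, ‖a h - a (s⁻¹ * h)‖ * (‖a h‖ + ‖a (s⁻¹ * h)‖)) ^ 2 ≤ (12 * δ) ^ 2 := by
    refine e6.trans ?_
    calc (∑ h ∈ T, ‖a h - a (s⁻¹ * h)‖ ^ 2) * ∑ h ∈ T, (‖a h‖ + ‖a (s⁻¹ * h)‖) ^ 2
        ≤ (3 * δ) ^ 2 * 16 := by
          refine mul_le_mul e1 e4 (Finset.sum_nonneg fun h _ => by positivity) (by positivity)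
      _ = (12 * δ) ^ 2 := by ring
  exact e5.trans (abs_le_of_sq_le_sq' e9 (by positivity)).2

end Pool.Agent.Helper35.KS

namespace Pool.Agent.Helper6K1.ZP

open Pool.Agent.H496R3.ZS (IsAmenable)
open Pool.Agent.H919R4.ZS
open Pool.Agent.TH38.ZT
open Pool.Agent.Helper6K1.ZM
open MonoidAlgebra (single)
open Pool.Agent.Helper35.KS

theorem t_kesten : Kesten := by
  intro Q _ hQ
  classical
  by_contra h1
  apply hQ
  intro S ε hε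
  set J : Set (MonoidAlgebra ℂ Q) :=
    Set.range fun g : Q => (1 : MonoidAlgebra ℂ Q) - single g 1 with hJdef
  have hJ : (1 : RedC Q) ∉ Submodule.span (RedC Q) (toC '' J) := by
    have h2 : toC '' J = Set.range fun g : Q => (1 : RedC Q) - toC (single g 1) := by
      rw [hJdef, ← Set.range_comp]
      congr 1
      funext g
      simp only [Function.comp, map_sub, map_one]
    rwa [h2]
  set δ : ℝ := min (1 / 2) (ε / (96 * (S.card + 1))) with hδdef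
  have hδ : 0 < δ := by
    rw [hδdef]
    positivity
  have hδ2 : δ ≤ 1 / 2 := min_le_left _ _
  have hδ3 : (S.card : ℝ) * (12 * δ) ≤ ε / 8 := by
    have h2 : δ ≤ ε / (96 * (S.card + 1)) := min_le_right _ _
    rw [le_div_iff₀ (by positivity)] at h2
    have h3 : (0 : ℝ) ≤ S.card := Nat.cast_nonneg _
    nlinarith
  obtain ⟨ξ, hξ1, hξ2⟩ := approx J hJ (S.image fun s => (1 : MonoidAlgebra ℂ Q) - single s 1)
    (fun b hb => by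
      obtain ⟨s, _, rfl⟩ := Finset.mem_image.1 hb
      exact ⟨s, rfl⟩) δ hδ
  obtain ⟨E, a, haE, haξ⟩ := exists_trunc ξ δ hδ
  have hinv : ∀ s ∈ S, ‖a - lregL s a‖ ≤ 3 * δ := by
    intro s hs
    have h2 := hξ2 _ (Finset.mem_image_of_mem _ hs)
    rw [LC_one_sub] at h2
    have h3 : a - lregL s a = (ξ - lregL s ξ) - (ξ - a) + lregL s (ξ - a) := by
      rw [map_sub]; abel
    rw [h3]
    refine (norm_add_le _ _).trans ?_
    rw [norm_lregL]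
    have h4 := norm_sub_le (ξ - lregL s ξ) (ξ - a)
    linarith
  have hup : ‖a‖ ≤ 2 := by
    have h2 : a = ξ - (ξ - a) := by abel
    rw [h2]
    refine (norm_sub_le _ _).trans ?_
    linarith
  have hlow : 1 / 2 ≤ ‖a‖ := by
    have h2 := norm_sub_norm_le ξ (ξ - a)
    rw [sub_sub_cancel] at h2
    linarith
  have hsum : 1 / 4 ≤ ∑ h ∈ E, ‖a h‖ ^ 2 := by
    rw [← norm_sq_eq a E haE]
    nlinarith
  set T : Finset Q := E ∪ S.biUnion fun s => E.image fun h => s * h with hT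
  refine level S ε hε (fun h => ‖a h‖ ^ 2) E T (fun h => by positivity)
    (fun h hh => by rw [haE h hh]; simp) Finset.subset_union_left ?_ ?_
  · intro s hs h hh
    refine Finset.mem_union_right _ (Finset.mem_biUnion.2 ⟨s, hs, Finset.mem_image.2 ⟨h, hh, rfl⟩⟩)
  · calc ∑ s ∈ S, ∑ h ∈ T, |‖a (s⁻¹ * h)‖ ^ 2 - ‖a h‖ ^ 2|
        ≤ ∑ _s ∈ S, 12 * δ := Finset.sum_le_sum fun s hs =>
          diff_sum a s T δ hδ.le (hinv s hs) hup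
      _ = (S.card : ℝ) * (12 * δ) := by rw [Finset.sum_const, nsmul_eq_mul]
      _ ≤ ε / 8 := hδ3
      _ < ε * (1 / 4) := by linarith
      _ ≤ ε * ∑ h ∈ E, ‖a h‖ ^ 2 := by gcongr

end Pool.Agent.Helper6K1.ZP
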